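import Pool.Agent.Lib.MP_a773b5_gt.SixFacets
import Pool.Agent.Lib.MP_a773b5_gt.Cube

set_option autoImplicit false

namespace Pool.Agent.Results.MP_a773b5_gt.SixFacets

open MeasureTheory Set Pool.Agent.Lib.MP_a773b5_gt

/-- Every convex polytope in three-space with at most six facets lies in a tetrahedron of volume at
most `9/2` times its volume, and for the unit cube no smaller tetrahedron is possible. -/
theorem result :
    (∀ (a : Fin 6 → EuclideanSpace ℝ (Fin 3)) (b : Fin 6 → ℝ)
      (K : Set (EuclideanSpace ℝ (Fin 3))), K = {x | ∀ i, inner ℝ (a i) x ≤ b i} →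
      IsCompact K → (interior K).Nonempty →
      ∃ v : Fin 4 → EuclideanSpace ℝ (Fin 3), AffineIndependent ℝ v ∧
        K ⊆ convexHull ℝ (range v) ∧
        volume (convexHull ℝ (range v)) ≤ ENNReal.ofReal (9 / 2) * volume K) ∧
    (∀ v : Fin 4 → EuclideanSpace ℝ (Fin 3), AffineIndependent ℝ v →
      {x : EuclideanSpace ℝ (Fin 3) | ∀ i, 0 ≤ x i ∧ x i ≤ 1} ⊆ convexHull ℝ (range v) →
      ENNReal.ofReal (9 / 2) * volume {x : EuclideanSpace ℝ (Fin 3) | ∀ i, 0 ≤ x i ∧ x i ≤ 1} ≤
        volume (convexHull ℝ (range v))) :=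
  ⟨fun a b _ hK hc hi => six_facets a b hK hc hi, fun v hv h => cube_lower' v hv h⟩

end Pool.Agent.Results.MP_a773b5_gt.SixFacets
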