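import Pool.Agent.Lib.MP_a773b5_gt.SBodies
import Pool.Agent.Lib.MP_a773b5_gt.Cube

set_option autoImplicit false

namespace Pool.Agent.Results.MP_a773b5_gt.Symmetric

open MeasureTheory Set Pool.Agent.Lib.MP_a773b5_gt

/-- Every centrally symmetric convex body `K` in three-space lies in a tetrahedron of volume at most
`9/2` times the volume of `K`, and for the unit cube no smaller tetrahedron is possible. -/
theorem result :
    (∀ (K : Set (EuclideanSpace ℝ (Fin 3))) (c : EuclideanSpace ℝ (Fin 3)),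
      IsCompact K → Convex ℝ K → (interior K).Nonempty → (∀ x ∈ K, (2:ℝ) • c - x ∈ K) →
      ∃ v : Fin 4 → EuclideanSpace ℝ (Fin 3), AffineIndependent ℝ v ∧
        K ⊆ convexHull ℝ (range v) ∧
        volume (convexHull ℝ (range v)) ≤ ENNReal.ofReal (9 / 2) * volume K) ∧
    (∀ v : Fin 4 → EuclideanSpace ℝ (Fin 3), AffineIndependent ℝ v →
      {x : EuclideanSpace ℝ (Fin 3) | ∀ i, 0 ≤ x i ∧ x i ≤ 1} ⊆ convexHull ℝ (range v) →
      ENNReal.ofReal (9 / 2) * volume {x : EuclideanSpace ℝ (Fin 3) | ∀ i, 0 ≤ x i ∧ x i ≤ 1} ≤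
        volume (convexHull ℝ (range v))) := by
  refine ⟨?_, fun v hv h => cube_lower' v hv h⟩
  intro K c hK hc hi hs
  let e : E3 ≃ᵃ[ℝ] E3 := AffineEquiv.constVAdd ℝ E3 (-c)
  have he : ∀ x, e x = x - c := fun x => by
    simp only [e, AffineEquiv.constVAdd_apply, vadd_eq_add]
    abel
  have hcont : Continuous e := e.toAffineMap.continuous_of_finiteDimensional
  have h1 : TetRatio (e '' K) (9 / 2) := by
    refine sym_bodies (hK.image hcont) (hc.affine_image e.toAffineMap) ?_ ?_
    · have hop : IsOpenMap e := (e.toContinuousAffineEquiv.toHomeomorph).isOpenMap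
      exact (hi.image e).mono (hop.image_interior_subset K)
    · rintro _ ⟨x, hx, rfl⟩
      refine ⟨(2:ℝ) • c - x, hs x hx, ?_⟩
      rw [he, he, two_smul]
      abel
  exact tetRatio_of_image e h1

end Pool.Agent.Results.MP_a773b5_gt.Symmetric
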