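import Pool.Agent.Lib.MP_a773b5_gt.Upper

set_option autoImplicit false

namespace Pool.Agent.Results.MP_a773b5_gt.UpperBound

open MeasureTheory Set Pool.Agent.Lib.MP_a773b5_gt

/-- Every convex body in three-space lies in a tetrahedron of volume at most `21/4` times its
volume. -/
theorem result (K : Set (EuclideanSpace ℝ (Fin 3))) (hK : IsCompact K) (hc : Convex ℝ K)
    (hi : (interior K).Nonempty) :
    ∃ v : Fin 4 → EuclideanSpace ℝ (Fin 3), AffineIndependent ℝ v ∧
      K ⊆ convexHull ℝ (range v) ∧
      volume (convexHull ℝ (range v)) ≤ ENNReal.ofReal (21 / 4) * volume K :=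
  upper hK hc hi

end Pool.Agent.Results.MP_a773b5_gt.UpperBound
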